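import Pool.Agent.Helper22.TW.Stmts

/-!
# Module NPW (MP_8312c9_nt): polynomials all of whose roots have multiplicity divisible by `n`
-/

set_option autoImplicit false

namespace Pool.Agent.Helper22.TW

open Pool.Agent.Helper14.BSC Polynomial

theorem npw_mult {Ω : Type} [Field Ω] (P H1 : Polynomial Ω) (hP : P ≠ 0) (hH : H1 ≠ 0) (a : ℕ) (v : Ω) :
    (P ^ a * H1).rootMultiplicity v = a * P.rootMultiplicity v + H1.rootMultiplicity v := by
  classical
  have h0 : P ^ a * H1 ≠ 0 := mul_ne_zero (pow_ne_zero _ hP) hH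
  rw [← count_roots, ← count_roots, ← count_roots, roots_mul h0, Multiset.count_add, roots_pow,
    Multiset.count_nsmul]

theorem npw_aux (F Ω : Type) [Field F] [Field Ω] [CharZero F] [Algebra F Ω] [IsAlgClosed Ω]
    (n : ℕ) (hn : 0 < n) : ∀ (d : ℕ) (H : F[X]), H.natDegree = d → H ≠ 0 →
      (∀ v : Ω, n ∣ (H.map (algebraMap F Ω)).rootMultiplicity v) →
      ∃ (γ : F) (Q : F[X]), γ ≠ 0 ∧ H = C γ * Q ^ n := by
  intro d
  induction d using Nat.strong_induction_on with
  | _ d ih =>
    intro H hd hH hv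
    by_cases hu : IsUnit H
    · obtain ⟨γ, hγ, hγ'⟩ := Polynomial.isUnit_iff.1 hu
      exact ⟨γ, 1, hγ.ne_zero, by rw [one_pow, mul_one]; exact hγ'.symm⟩
    obtain ⟨π, hπm, hπi, hπH⟩ := Polynomial.exists_monic_irreducible_factor H hu
    have hfin : FiniteMultiplicity π H := FiniteMultiplicity.of_not_isUnit hπi.not_isUnit hH
    obtain ⟨H1, hH1, hnd⟩ := hfin.exists_eq_pow_mul_and_not_dvd
    set a := multiplicity π H with ha
    have hH10 : H1 ≠ 0 := by
      rintro rfl
      exact hH (by rw [hH1, mul_zero])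
    have hπ0 : π ≠ 0 := hπi.ne_zero
    have hmπ : π.map (algebraMap F Ω) ≠ 0 := (Polynomial.map_ne_zero_iff
      (algebraMap F Ω).injective).2 hπ0
    have hmH : H1.map (algebraMap F Ω) ≠ 0 := (Polynomial.map_ne_zero_iff
      (algebraMap F Ω).injective).2 hH10
    have hmul : ∀ v : Ω, (H.map (algebraMap F Ω)).rootMultiplicity v
        = a * (π.map (algebraMap F Ω)).rootMultiplicity v
          + (H1.map (algebraMap F Ω)).rootMultiplicity v := by
      intro v
      conv_lhs => rw [hH1]
      rw [Polynomial.map_mul, Polynomial.map_pow]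
      exact npw_mult _ _ hmπ hmH a v
    -- a root of `π`
    have hdeg : π.degree ≠ 0 := by
      intro h
      exact hπi.not_isUnit (Polynomial.isUnit_iff_degree_eq_zero.2 h)
    obtain ⟨v, hv0⟩ := IsAlgClosed.exists_aeval_eq_zero Ω π hdeg
    have hsep : (π.map (algebraMap F Ω)).Separable := hπi.separable.map
    have hroot : (π.map (algebraMap F Ω)).IsRoot v := by
      rw [IsRoot.def, eval_map_algebraMap]
      exact hv0
    have h1 : (π.map (algebraMap F Ω)).rootMultiplicity v = 1 := by
      have h2 := rootMultiplicity_le_one_of_separable hsep v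
      have h3 : 0 < (π.map (algebraMap F Ω)).rootMultiplicity v :=
        (rootMultiplicity_pos hmπ).2 hroot
      omega
    have hmin : π = minpoly F v := minpoly.eq_of_irreducible_of_monic hπi hv0 hπm
    have h2 : (H1.map (algebraMap F Ω)).rootMultiplicity v = 0 := by
      rw [rootMultiplicity_eq_zero_iff]
      intro h
      exfalso
      apply hnd
      rw [hmin]
      refine minpoly.dvd F v ?_
      rw [IsRoot.def, eval_map_algebraMap] at h
      exact h
    have hna : n ∣ a := by
      have h3 := hv v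
      rw [hmul v, h1, h2, mul_one, add_zero] at h3
      exact h3
    have ha1 : 1 ≤ a := by
      by_contra hlt
      have h0 : a = 0 := by omega
      rw [h0, pow_zero, one_mul] at hH1
      exact hnd (hH1 ▸ hπH)
    have hv1 : ∀ v : Ω, n ∣ (H1.map (algebraMap F Ω)).rootMultiplicity v := by
      intro v'
      have h3 := hv v'
      rw [hmul v'] at h3
      exact (Nat.dvd_add_right (hna.mul_right _)).1 h3
    have hdlt : H1.natDegree < d := by
      rw [← hd]
      conv_rhs => rw [hH1]
      rw [natDegree_mul (pow_ne_zero _ hπ0) hH10, natDegree_pow]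
      have hp : 0 < π.natDegree := hπi.natDegree_pos
      have : 0 < a * π.natDegree := Nat.mul_pos ha1 hp
      omega
    obtain ⟨γ, Q, hγ, hQ⟩ := ih _ hdlt H1 rfl hH10 hv1
    obtain ⟨b, hb⟩ := hna
    refine ⟨γ, π ^ b * Q, hγ, ?_⟩
    conv_lhs => rw [hH1]
    rw [hQ, mul_pow, ← pow_mul, mul_comm b n, ← hb]
    ring

theorem st_NPW : ST_NPW := by
  intro F Ω _ _ _ _ _ n hn H hH hv
  exact npw_aux F Ω n hn _ H rfl hH hv

end Pool.Agent.Helper22.TW
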